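import Pool.Agent.TH632.Defs

set_option autoImplicit false

/-! Job 10 of helper632: PL manifolds are pure, have two cells at each facet, and connected ones
are strongly connected. -/

open Set

namespace Pool.Agent.TH641.J10

open Pool.Agent.TH632
open scoped Classical

section
universe u w
variable {V : Type u} {W : Type w}

/-- the vertex `a` as a point of the realization -/
noncomputable def pt (a : V) : V → ℝ := fun v => if v = a then 1 else 0

theorem pt_self (a : V) : pt a a = 1 := if_pos rfl

theorem pt_ne {a v : V} (h : v ≠ a) : pt a v = 0 := if_neg h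

theorem pt_inj {a b : V} (h : pt a = pt b) : a = b := by
  by_contra hab
  have := congrFun h a
  rw [pt_self, pt_ne hab] at this
  exact one_ne_zero this

theorem pt_mem_simplex {s : Finset V} {a : V} (ha : a ∈ s) : pt a ∈ simplex s := by
  refine ⟨fun v => ?_, fun v hv => ?_, ?_⟩
  · unfold pt; split_ifs <;> norm_num
  · have : v ≠ a := fun h => hv (h ▸ ha)
    exact pt_ne this
  · rw [Finset.sum_eq_single a]
    · exact pt_self a
    · intro b _ hb; exact pt_ne hb
    · intro h; exact absurd ha h

theorem pt_mem_realization {K : PreAbstractSimplicialComplex V} {s : Finset V}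
    (hs : s ∈ K.faces) {a : V} (ha : a ∈ s) : pt a ∈ realization K :=
  Set.mem_biUnion hs (pt_mem_simplex ha)

theorem face_of_subset {K : PreAbstractSimplicialComplex V} {s t : Finset V}
    (hs : s ∈ K.faces) (hts : t ⊆ s) (ht : t.Nonempty) : t ∈ K.faces :=
  (K.isRelLowerSet_faces hs).2 hts ht

theorem face_nonempty {K : PreAbstractSimplicialComplex V} {s : Finset V}
    (hs : s ∈ K.faces) : s.Nonempty := (K.isRelLowerSet_faces hs).1

theorem simplex_singleton {a : V} {x : V → ℝ} (hx : x ∈ simplex {a}) : x = pt a := by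
  obtain ⟨_, h2, h3⟩ := hx
  rw [Finset.sum_singleton] at h3
  funext v
  by_cases h : v = a
  · subst h; rw [pt_self]; exact h3
  · rw [h2 v (by simpa using h), pt_ne h]

theorem boundary_nonempty {n : ℕ} (hn : 1 ≤ n) : (realization (simplexBoundary n)).Nonempty := by
  refine ⟨pt 0, pt_mem_realization (s := {0}) ?_ (by simp)⟩
  refine ⟨by simp, fun h => ?_⟩
  have := congrArg Finset.card h
  rw [Finset.card_singleton, Finset.card_univ, Fintype.card_fin] at this
  omega

theorem simplex_nonempty_point {s : Finset V} {x : V → ℝ} (hx : x ∈ simplex s) :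
    ∃ v ∈ s, 0 < x v := by
  obtain ⟨h1, _, h3⟩ := hx
  by_contra h
  push Not at h
  have : ∑ v ∈ s, x v = 0 := Finset.sum_eq_zero fun v hv => le_antisymm (h v hv) (h1 v)
  rw [this] at h3
  exact zero_ne_one h3

theorem exists_cell {m : ℕ} {K : PreAbstractSimplicialComplex V}
    (hK : IsPLManifold m K) : ∀ (k : ℕ) {s : Finset V}, s ∈ K.faces → s.card + k = m + 1 →
    ∃ σ ∈ K.faces, s ⊆ σ ∧ σ.card = m + 1
  | 0, s, hs, hk => ⟨s, hs, Finset.Subset.refl _, by omega⟩
  | k + 1, s, hs, hk => by
    obtain ⟨_, e, _, _⟩ := hK.2 s hs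
    obtain ⟨y, hy⟩ := boundary_nonempty (n := m + 1 - s.card) (by omega)
    obtain ⟨t, ht, hxt⟩ := Set.mem_iUnion₂.mp (e.symm ⟨y, hy⟩).2
    obtain ⟨hne, hd, hf⟩ := ht
    obtain ⟨a, ha⟩ := hne
    have ha' : a ∉ s := Finset.disjoint_left.mp hd ha
    have hface : insert a s ∈ K.faces := by
      refine face_of_subset hf ?_ (Finset.insert_nonempty _ _)
      intro v hv
      rcases Finset.mem_insert.mp hv with rfl | hv
      · exact Finset.mem_union_left _ ha
      · exact Finset.mem_union_right _ hv
    obtain ⟨σ, h1, h2, h3⟩ := exists_cell hK k hface (by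
      rw [Finset.card_insert_of_notMem ha']; omega)
    exact ⟨σ, h1, (Finset.subset_insert _ _).trans h2, h3⟩

theorem exists_cell' {m : ℕ} {K : PreAbstractSimplicialComplex V}
    (hK : IsPLManifold m K) {s : Finset V} (hs : s ∈ K.faces) :
    ∃ σ ∈ K.faces, s ⊆ σ ∧ σ.card = m + 1 :=
  exists_cell hK (m + 1 - s.card) hs (by have := (hK.2 s hs).1; omega)

theorem fin2_one : ∀ i : Fin (1 + 1), i ≠ 0 → i = 1 := by decide

theorem fin2_cases (t : Finset (Fin (1 + 1))) (h1 : t.Nonempty) (h2 : t ≠ Finset.univ) :
    t = {0} ∨ t = {1} := by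
  by_cases h0 : (0 : Fin (1 + 1)) ∈ t
  · left
    ext i
    rw [Finset.mem_singleton]
    constructor
    · intro hi
      by_contra hne
      apply h2
      have h1 : (1 : Fin (1 + 1)) ∈ t := by
        have : i = 1 := fin2_one i hne
        exact this ▸ hi
      ext j
      simp only [Finset.mem_univ, iff_true]
      by_cases hj : j = 0
      · exact hj ▸ h0
      · have : j = 1 := fin2_one j hj
        exact this ▸ h1
    · rintro rfl; exact h0
  · right
    obtain ⟨i, hi⟩ := h1
    have h1 : i = 1 := by
      have : i ≠ 0 := fun h => h0 (h ▸ hi)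
      exact fin2_one i this
    ext j
    rw [Finset.mem_singleton]
    constructor
    · intro hj
      have : j ≠ 0 := fun h => h0 (h ▸ hj)
      exact fin2_one j this
    · rintro rfl; exact h1 ▸ hi

theorem bface (i : Fin (1 + 1)) :
    ({i} : Finset (Fin (1 + 1))) ∈ (simplexBoundary 1).faces := by
  refine ⟨Finset.singleton_nonempty i, fun h => ?_⟩
  have := congrArg Finset.card h
  rw [Finset.card_singleton, Finset.card_univ, Fintype.card_fin] at this
  omega

theorem boundary_one {x : Fin (1 + 1) → ℝ} (hx : x ∈ realization (simplexBoundary 1)) :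
    x = pt 0 ∨ x = pt 1 := by
  obtain ⟨t, ht, hxt⟩ := Set.mem_iUnion₂.mp hx
  obtain ⟨hne, hu⟩ := ht
  rcases fin2_cases t hne hu with rfl | rfl
  · exact Or.inl (simplex_singleton hxt)
  · exact Or.inr (simplex_singleton hxt)

theorem link_vertex {K : PreAbstractSimplicialComplex V} {s : Finset V} {a : V} :
    ({a} : Finset V) ∈ (link K s).faces ↔ a ∉ s ∧ insert a s ∈ K.faces := by
  show ({a} : Finset V).Nonempty ∧ Disjoint {a} s ∧ {a} ∪ s ∈ K.faces ↔ _
  rw [Finset.disjoint_singleton_left]
  constructor
  · rintro ⟨_, h2, h3⟩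
    refine ⟨h2, ?_⟩
    rwa [Finset.insert_eq]
  · rintro ⟨h2, h3⟩
    refine ⟨Finset.singleton_nonempty a, h2, ?_⟩
    rwa [← Finset.insert_eq]

theorem exists_two {m : ℕ} {K : PreAbstractSimplicialComplex V}
    (hK : IsPLManifold m K) {τ : Finset V} (hτ : τ ∈ K.faces) (hc : τ.card = m) :
    ∃ a b : V, a ≠ b ∧ a ∉ τ ∧ b ∉ τ ∧ insert a τ ∈ K.faces ∧ insert b τ ∈ K.faces ∧
      ∀ c, c ∉ τ → insert c τ ∈ K.faces → c = a ∨ c = b := by
  have h1 : m + 1 - τ.card = 1 := by omega
  have h2 := (hK.2 τ hτ).2
  rw [h1] at h2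
  obtain ⟨e, _, _⟩ := h2
  -- two points of the boundary
  have hp0 : (pt 0 : Fin (1 + 1) → ℝ) ∈ realization (simplexBoundary 1) :=
    pt_mem_realization (s := {0}) (bface 0) (by simp)
  have hp1 : (pt 1 : Fin (1 + 1) → ℝ) ∈ realization (simplexBoundary 1) :=
    pt_mem_realization (s := {1}) (bface 1) (by simp)
  have hcases : ∀ y : realization (simplexBoundary 1), y = ⟨_, hp0⟩ ∨ y = ⟨_, hp1⟩ := by
    rintro ⟨y, hy⟩
    rcases boundary_one hy with rfl | rfl
    · exact Or.inl rfl
    · exact Or.inr rfl
  have hne : (⟨_, hp0⟩ : realization (simplexBoundary 1)) ≠ ⟨_, hp1⟩ := by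
    intro h
    have := pt_inj (congrArg Subtype.val h)
    exact absurd this (by decide)
  -- there are two different vertices in the link
  have hex : ∃ a b : V, a ≠ b ∧ {a} ∈ (link K τ).faces ∧ {b} ∈ (link K τ).faces := by
    by_contra hcon
    push Not at hcon
    have hsub : ∀ x y : realization (link K τ), x = y := by
      rintro ⟨x, hx⟩ ⟨y, hy⟩
      obtain ⟨s, hs, hxs⟩ := Set.mem_iUnion₂.mp hx
      obtain ⟨s', hs', hys⟩ := Set.mem_iUnion₂.mp hy
      obtain ⟨a, ha⟩ := face_nonempty hs
      have key : ∀ s'' ∈ (link K τ).faces, s'' = {a} := by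
        intro s'' hs''
        ext b
        rw [Finset.mem_singleton]
        constructor
        · intro hb
          by_contra hba
          exact hcon b a hba
            (face_of_subset hs'' (Finset.singleton_subset_iff.mpr hb) (by simp))
            (face_of_subset hs (Finset.singleton_subset_iff.mpr ha) (by simp))
        · rintro rfl
          obtain ⟨c, hc⟩ := face_nonempty hs''
          by_contra hba
          have hcb : c ≠ b := fun h => hba (h ▸ hc)
          exact hcon c b hcb
            (face_of_subset hs'' (Finset.singleton_subset_iff.mpr hc) (by simp))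
            (face_of_subset hs (Finset.singleton_subset_iff.mpr ha) (by simp))
      rw [key s hs] at hxs
      rw [key s' hs'] at hys
      exact Subtype.ext ((simplex_singleton hxs).trans (simplex_singleton hys).symm)
    apply hne
    have := congrArg e (hsub (e.symm ⟨_, hp0⟩) (e.symm ⟨_, hp1⟩))
    simpa using this
  obtain ⟨a, b, hab, ha, hb⟩ := hex
  have ha' := link_vertex.mp ha
  have hb' := link_vertex.mp hb
  refine ⟨a, b, hab, ha'.1, hb'.1, ha'.2, hb'.2, ?_⟩
  intro c hcτ hcK
  have hc' : {c} ∈ (link K τ).faces := link_vertex.mpr ⟨hcτ, hcK⟩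
  have mem : ∀ {v : V}, {v} ∈ (link K τ).faces → pt v ∈ realization (link K τ) :=
    fun hv => pt_mem_realization hv (by simp)
  have hinj : ∀ {v v' : V} (hv : {v} ∈ (link K τ).faces) (hv' : {v'} ∈ (link K τ).faces),
      e ⟨_, mem hv⟩ = e ⟨_, mem hv'⟩ → v = v' := by
    intro v v' hv hv' h
    exact pt_inj (congrArg Subtype.val (e.injective h))
  by_contra hcon
  push Not at hcon
  rcases hcases (e ⟨_, mem ha⟩) with h1 | h1 <;> rcases hcases (e ⟨_, mem hb⟩) with h2 | h2 <;>
    rcases hcases (e ⟨_, mem hc'⟩) with h3 | h3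
  · exact hab (hinj ha hb (h1.trans h2.symm))
  · exact hab (hinj ha hb (h1.trans h2.symm))
  · exact hcon.1 (hinj hc' ha (h3.trans h1.symm))
  · exact hcon.2 (hinj hc' hb (h3.trans h2.symm))
  · exact hcon.2 (hinj hc' hb (h3.trans h2.symm))
  · exact hcon.1 (hinj hc' ha (h3.trans h1.symm))
  · exact hab (hinj ha hb (h1.trans h2.symm))
  · exact hab (hinj ha hb (h1.trans h2.symm))

/-- vertices of a complex with connected realization are joined by paths of edges -/
theorem edge_path {L : PreAbstractSimplicialComplex V} [PreconnectedSpace (realization L)]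
    {a b : V} (ha : {a} ∈ L.faces) (hb : {b} ∈ L.faces) :
    Relation.ReflTransGen (fun u v => ({u, v} : Finset V) ∈ L.faces) a b := by
  set r : V → V → Prop := fun u v => ({u, v} : Finset V) ∈ L.faces with hr
  let U : Set (realization L) := {x | ∃ v, 0 < (x : V → ℝ) v ∧ Relation.ReflTransGen r a v}
  let U' : Set (realization L) := {x | ∃ v, 0 < (x : V → ℝ) v ∧ ¬ Relation.ReflTransGen r a v}
  have hopen : ∀ v : V, IsOpen {x : realization L | 0 < (x : V → ℝ) v} := by
    intro v
    exact isOpen_lt continuous_const ((continuous_apply v).comp continuous_subtype_val)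
  have hU : IsOpen U := by
    have : U = ⋃ v ∈ {v | Relation.ReflTransGen r a v}, {x : realization L | 0 < (x : V → ℝ) v} := by
      ext x
      simp only [U, Set.mem_ofPred_eq, Set.mem_iUnion, exists_prop]
      exact ⟨fun ⟨v, h1, h2⟩ => ⟨v, h2, h1⟩, fun ⟨v, h1, h2⟩ => ⟨v, h2, h1⟩⟩
    rw [this]
    exact isOpen_biUnion fun v _ => hopen v
  have hU' : IsOpen U' := by
    have : U' = ⋃ v ∈ {v | ¬ Relation.ReflTransGen r a v},
        {x : realization L | 0 < (x : V → ℝ) v} := by
      ext x
      simp only [U', Set.mem_ofPred_eq, Set.mem_iUnion, exists_prop]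
      exact ⟨fun ⟨v, h1, h2⟩ => ⟨v, h2, h1⟩, fun ⟨v, h1, h2⟩ => ⟨v, h2, h1⟩⟩
    rw [this]
    exact isOpen_biUnion fun v _ => hopen v
  have hcompl : U' = Uᶜ := by
    ext x
    obtain ⟨s, hs, hxs⟩ := Set.mem_iUnion₂.mp x.2
    have hsupp : ∀ v, 0 < (x : V → ℝ) v → v ∈ s := by
      intro v hv
      by_contra h
      rw [hxs.2.1 v h] at hv
      exact lt_irrefl _ hv
    constructor
    · rintro ⟨v, hv, hav⟩ ⟨w, hw, haw⟩
      apply hav
      refine haw.tail ?_
      refine face_of_subset hs ?_ (Finset.insert_nonempty _ _)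
      intro z hz
      rcases Finset.mem_insert.mp hz with rfl | hz
      · exact hsupp _ hw
      · rw [Finset.mem_singleton.mp hz]; exact hsupp _ hv
    · intro hx
      obtain ⟨v, _, hv⟩ := simplex_nonempty_point hxs
      exact ⟨v, hv, fun h => hx ⟨v, hv, h⟩⟩
  have hclopen : IsClopen U := ⟨by rw [← isOpen_compl_iff, ← hcompl]; exact hU', hU⟩
  have hpa : (⟨pt a, pt_mem_realization ha (by simp)⟩ : realization L) ∈ U :=
    ⟨a, by show 0 < pt a a; rw [pt_self]; norm_num, Relation.ReflTransGen.refl⟩
  have huniv : U = Set.univ := by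
    rcases isClopen_iff.mp hclopen with h | h
    · rw [h] at hpa; exact absurd hpa (Set.notMem_empty _)
    · exact h
  have hpb : (⟨pt b, pt_mem_realization hb (by simp)⟩ : realization L) ∈ U := by
    rw [huniv]; trivial
  obtain ⟨v, hv, hav⟩ := hpb
  have : v = b := by
    by_contra hvb
    have h0 : pt b v = 0 := pt_ne hvb
    have hv' : 0 < pt b v := hv
    rw [h0] at hv'
    exact lt_irrefl _ hv'
  exact this ▸ hav

theorem simplex_convex (s : Finset V) : Convex ℝ (simplex s) := by
  intro x hx y hy p q hp hq hpq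
  refine ⟨fun v => ?_, fun v hv => ?_, ?_⟩
  · have h1 := hx.1 v
    have h2 := hy.1 v
    simp only [Pi.add_apply, Pi.smul_apply, smul_eq_mul]
    positivity
  · simp only [Pi.add_apply, Pi.smul_apply, smul_eq_mul, hx.2.1 v hv, hy.2.1 v hv]
    ring
  · simp only [Pi.add_apply, Pi.smul_apply, smul_eq_mul]
    rw [Finset.sum_add_distrib, ← Finset.mul_sum, ← Finset.mul_sum, hx.2.2, hy.2.2]
    linarith

theorem simplex_sub_realization {K : PreAbstractSimplicialComplex V} {s : Finset V}
    (hs : s ∈ K.faces) : simplex s ⊆ realization K := Set.subset_biUnion_of_mem hs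

theorem boundary_preconnected {n : ℕ} (hn : 2 ≤ n) :
    IsPreconnected (realization (simplexBoundary n)) := by
  have hsmall : ∀ t : Finset (Fin (n + 1)), t.Nonempty → t.card ≤ 2 →
      t ∈ (simplexBoundary n).faces := by
    intro t h1 h2
    refine ⟨h1, fun h => ?_⟩
    rw [h, Finset.card_univ, Fintype.card_fin] at h2
    omega
  refine isPreconnected_of_forall (pt 0) ?_
  intro y hy
  obtain ⟨t, ht, hyt⟩ := Set.mem_iUnion₂.mp hy
  obtain ⟨i, hi⟩ := face_nonempty ht
  have he : ({0, i} : Finset (Fin (n + 1))) ∈ (simplexBoundary n).faces :=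
    hsmall _ (Finset.insert_nonempty _ _) (Finset.card_le_two)
  refine ⟨simplex {0, i} ∪ simplex t, Set.union_subset (simplex_sub_realization he)
    (simplex_sub_realization ht), Or.inl (pt_mem_simplex (by simp)), Or.inr hyt, ?_⟩
  exact IsPreconnected.union (pt i) (pt_mem_simplex (by simp)) (pt_mem_simplex hi)
    (simplex_convex _).isPreconnected (simplex_convex _).isPreconnected

/-- the dual graph: `m`-simplices, adjacent when they share `m` vertices -/
def dualGraph (m : ℕ) (K : PreAbstractSimplicialComplex V) :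
    SimpleGraph {σ : Finset V // σ ∈ K.faces ∧ σ.card = m + 1} where
  Adj σ τ := σ ≠ τ ∧ (σ.1 ∩ τ.1).card = m
  symm := ⟨fun σ τ h => ⟨h.1.symm, by rw [Finset.inter_comm]; exact h.2⟩⟩
  loopless := ⟨fun σ h => h.1 rfl⟩

/-- edge paths around a face `s` (possibly empty) -/
def HasPaths (K : PreAbstractSimplicialComplex V) (s : Finset V) : Prop :=
  ∀ a b, a ∉ s → b ∉ s → insert a s ∈ K.faces → insert b s ∈ K.faces →
    Relation.ReflTransGen (fun u v => u ∉ s ∧ v ∉ s ∧ insert u (insert v s) ∈ K.faces) a b

theorem hasPaths_link {m : ℕ} {K : PreAbstractSimplicialComplex V} (hK : IsPLManifold m K)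
    {s : Finset V} (hs : s ∈ K.faces) (hc : s.card + 2 ≤ m + 1) : HasPaths K s := by
  intro a b has hbs ha hb
  obtain ⟨_, e, _, _⟩ := hK.2 s hs
  have h1 : PreconnectedSpace (realization (simplexBoundary (m + 1 - s.card))) :=
    isPreconnected_iff_preconnectedSpace.mp (boundary_preconnected (by omega))
  have h2 : PreconnectedSpace (realization (link K s)) :=
    e.symm.surjective.denseRange.preconnectedSpace e.symm.continuous
  have := edge_path (L := link K s) (link_vertex.mpr ⟨has, ha⟩) (link_vertex.mpr ⟨hbs, hb⟩)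
  refine Relation.ReflTransGen.mono ?_ a b this
  intro u v huv
  obtain ⟨_, hd, hf⟩ := huv
  have hu : u ∉ s := Finset.disjoint_left.mp hd (Finset.mem_insert_self _ _)
  have hv : v ∉ s := Finset.disjoint_left.mp hd
    (Finset.mem_insert_of_mem (Finset.mem_singleton_self _))
  refine ⟨hu, hv, ?_⟩
  convert hf using 1
  ext z
  simp only [Finset.mem_insert, Finset.mem_union, Finset.mem_singleton]
  tauto

theorem hasPaths_empty {K : PreAbstractSimplicialComplex V} [PreconnectedSpace (realization K)] :
    HasPaths K ∅ := by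
  intro a b _ _ ha hb
  have := edge_path (L := K) (a := a) (b := b) (by simpa using ha) (by simpa using hb)
  refine Relation.ReflTransGen.mono ?_ a b this
  intro u v huv
  refine ⟨Finset.notMem_empty _, Finset.notMem_empty _, ?_⟩
  simpa using huv

theorem reach {m : ℕ} {K : PreAbstractSimplicialComplex V} (hK : IsPLManifold m K)
    [PreconnectedSpace (realization K)] (hm : 1 ≤ m) :
    ∀ (k : ℕ) (s : Finset V), (s = ∅ ∨ s ∈ K.faces) → s.card + k = m →
      ∀ α β : {σ : Finset V // σ ∈ K.faces ∧ σ.card = m + 1}, s ⊆ α.1 → s ⊆ β.1 →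
        (dualGraph m K).Reachable α β
  | 0, s, _, hc, α, β, hα, hβ => by
    by_cases h : α = β
    · rw [h]
    · apply SimpleGraph.Adj.reachable
      refine ⟨h, le_antisymm ?_ ?_⟩
      · by_contra hlt
        have h1 : (α.1 ∩ β.1).card ≤ α.1.card := Finset.card_le_card Finset.inter_subset_left
        rw [α.2.2] at h1
        have h2 : (α.1 ∩ β.1).card = α.1.card := by rw [α.2.2]; omega
        have h3 : α.1 ∩ β.1 = α.1 := Finset.eq_of_subset_of_card_le Finset.inter_subset_left h2.ge
        have h4 : α.1 = β.1 := Finset.eq_of_subset_of_card_le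
          (fun z hz => (Finset.mem_inter.mp (h3.symm ▸ hz)).2) (by rw [α.2.2, β.2.2])
        exact h (Subtype.ext h4)
      · have := Finset.card_le_card (Finset.subset_inter hα hβ)
        omega
  | k + 1, s, hs, hc, α, β, hα, hβ => by
    have hpaths : HasPaths K s := by
      rcases hs with rfl | hs
      · exact hasPaths_empty
      · exact hasPaths_link hK hs (by omega)
    have hexα : ∃ a ∈ α.1, a ∉ s := by
      by_contra hcon
      push Not at hcon
      have := Finset.card_le_card (show α.1 ⊆ s from hcon)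
      rw [α.2.2] at this
      omega
    have hexβ : ∃ b ∈ β.1, b ∉ s := by
      by_contra hcon
      push Not at hcon
      have := Finset.card_le_card (show β.1 ⊆ s from hcon)
      rw [β.2.2] at this
      omega
    obtain ⟨a, haα, has⟩ := hexα
    obtain ⟨b, hbβ, hbs⟩ := hexβ
    have haK : insert a s ∈ K.faces :=
      face_of_subset α.2.1 (Finset.insert_subset haα hα) (Finset.insert_nonempty _ _)
    have hbK : insert b s ∈ K.faces :=
      face_of_subset β.2.1 (Finset.insert_subset hbβ hβ) (Finset.insert_nonempty _ _)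
    have hpath := hpaths a b has hbs haK hbK
    -- every cell containing `insert b' s` is reachable from `α`
    have key : ∀ b' : V, Relation.ReflTransGen
        (fun u v => u ∉ s ∧ v ∉ s ∧ insert u (insert v s) ∈ K.faces) a b' →
        ∀ γ : {σ : Finset V // σ ∈ K.faces ∧ σ.card = m + 1}, insert b' s ⊆ γ.1 →
          (dualGraph m K).Reachable α γ := by
      intro b' hb'
      induction hb' with
      | refl =>
        intro γ hγ
        exact reach hK hm k (insert a s) (Or.inr haK)
          (by rw [Finset.card_insert_of_notMem has]; omega) α γ (Finset.insert_subset haα hα) hγ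
      | tail _ huv ih =>
        rename_i u v _
        intro γ hγ
        obtain ⟨hu, hv, hf⟩ := huv
        obtain ⟨σ, h1, h2, h3⟩ := exists_cell' hK hf
        have hσ1 : insert u s ⊆ σ := by
          refine subset_trans ?_ h2
          exact Finset.insert_subset_insert _ (Finset.subset_insert _ _)
        have hσ2 : insert v s ⊆ σ := (Finset.subset_insert _ _).trans h2
        have hvK : insert v s ∈ K.faces :=
          face_of_subset h1 hσ2 (Finset.insert_nonempty _ _)
        exact (ih ⟨σ, h1, h3⟩ hσ1).trans (reach hK hm k (insert v s) (Or.inr hvK)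
          (by rw [Finset.card_insert_of_notMem hv]; omega) ⟨σ, h1, h3⟩ γ hσ2 hγ)
    exact key b hpath β (Finset.insert_subset hbβ hβ)

theorem dualGraph_connected {m : ℕ} (hm : 1 ≤ m) {K : PreAbstractSimplicialComplex V}
    (hK : IsPLManifold m K) [ConnectedSpace (realization K)] :
    (dualGraph m K).Connected := by
  obtain ⟨x, hx⟩ := (inferInstance : Nonempty (realization K))
  obtain ⟨s, hs, _⟩ := Set.mem_iUnion₂.mp hx
  obtain ⟨σ, h1, _, h3⟩ := exists_cell' hK hs
  have : Nonempty {σ : Finset V // σ ∈ K.faces ∧ σ.card = m + 1} := ⟨⟨σ, h1, h3⟩⟩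
  exact ⟨fun α β => reach hK hm m ∅ (Or.inl rfl) (by simp) α β (Finset.empty_subset _)
    (Finset.empty_subset _)⟩

end

end Pool.Agent.TH641.J10
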